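import Mathlib

/-!
# A number `α` for which a block of digits stands in none of the numbers `a α + c`
-/

set_option autoImplicit false

open Finset Filter Topology

namespace Pool.Agent.T9h51.TR

/-- the digit of `y` at the place `n + 1` -/
noncomputable def dg (b : ℕ) (y : ℝ) (n : ℕ) : ℤ := ⌊y * (b : ℝ) ^ (n + 1)⌋ % b

/-- the digit of weight `b ^ i` of `w` -/
def om (b w i : ℕ) : ℤ := ((w / b ^ i % b : ℕ) : ℤ)

theorem ofDigits_update {b : ℕ} (hb : 2 ≤ b) (e : ℕ → Fin b) (n : ℕ) (v : Fin b) :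
    Real.ofDigits (Function.update e n v) = Real.ofDigits e + ((v : ℝ) - (e n : ℕ)) / (b : ℝ) ^ (n + 1) := by
  rw [Real.ofDigits_eq_sum_add_ofDigits (Function.update e n v) (n + 1),
    Real.ofDigits_eq_sum_add_ofDigits e (n + 1), Finset.sum_range_succ, Finset.sum_range_succ]
  have h1 : (fun i => Function.update e n v (i + (n + 1))) = fun i => e (i + (n + 1)) := by
    funext i
    exact Function.update_of_ne (by omega) _ _
  have h2 : ∑ i ∈ range n, Real.ofDigitsTerm (Function.update e n v) i = ∑ i ∈ range n, Real.ofDigitsTerm e i := by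
    refine Finset.sum_congr rfl fun i hi => ?_
    unfold Real.ofDigitsTerm
    rw [Function.update_of_ne (by have := mem_range.1 hi; omega)]
  rw [h1, h2]
  unfold Real.ofDigitsTerm
  rw [Function.update_self]
  ring

theorem dg_update_gt {b : ℕ} (hb : 2 ≤ b) (a : ℤ) (c : ℝ) (e : ℕ → Fin b) (n m : ℕ) (hm : n < m) (v : Fin b) :
    dg b (a * Real.ofDigits (Function.update e n v) + c) m = dg b (a * Real.ofDigits e + c) m := by
  have hb0 : (b : ℝ) ≠ 0 := by
    have : (0 : ℝ) < b := by exact_mod_cast (by omega : 0 < b)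
    exact this.ne'
  obtain ⟨r, rfl⟩ : ∃ r, m = n + 1 + r := ⟨m - (n + 1), by omega⟩
  unfold dg
  rw [ofDigits_update hb]
  have h1 : (a * (Real.ofDigits e + ((v : ℝ) - (e n : ℕ)) / (b : ℝ) ^ (n + 1)) + c) * (b : ℝ) ^ (n + 1 + r + 1) =
      (a * Real.ofDigits e + c) * (b : ℝ) ^ (n + 1 + r + 1) +
        ((a * (((v : ℕ) : ℤ) - ((e n : ℕ) : ℤ)) * (b : ℤ) ^ r * b : ℤ) : ℝ) := by
    push_cast
    rw [pow_succ, pow_add]
    field_simp
    ring
  rw [h1, Int.floor_add_intCast, Int.add_mul_emod_self_right]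

theorem dg_update_self {b : ℕ} (hb : 2 ≤ b) (a : ℤ) (c : ℝ) (e : ℕ → Fin b) (n : ℕ) (v : Fin b) :
    dg b (a * Real.ofDigits (Function.update e n v) + c) n =
      (⌊(a * Real.ofDigits e + c) * (b : ℝ) ^ (n + 1)⌋ + a * (((v : ℕ) : ℤ) - ((e n : ℕ) : ℤ))) % b := by
  have hb0 : (b : ℝ) ≠ 0 := by
    have : (0 : ℝ) < b := by exact_mod_cast (by omega : 0 < b)
    exact this.ne'
  unfold dg
  rw [ofDigits_update hb]
  have h1 : (a * (Real.ofDigits e + ((v : ℝ) - (e n : ℕ)) / (b : ℝ) ^ (n + 1)) + c) * (b : ℝ) ^ (n + 1) =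
      (a * Real.ofDigits e + c) * (b : ℝ) ^ (n + 1) +
        ((a * (((v : ℕ) : ℤ) - ((e n : ℕ) : ℤ)) : ℤ) : ℝ) := by
    push_cast
    field_simp
    ring
  rw [h1, Int.floor_add_intCast]

/-- at most one value of the digit `e n` leads to a given digit of `a α + c` -/
theorem dg_update_inj {b : ℕ} (hb : 2 ≤ b) (a : ℤ) (ha : IsCoprime a (b : ℤ)) (c : ℝ) (e : ℕ → Fin b) (n : ℕ)
    (v v' : Fin b) (h : dg b (a * Real.ofDigits (Function.update e n v) + c) n =
      dg b (a * Real.ofDigits (Function.update e n v') + c) n) : v = v' := by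
  rw [dg_update_self hb, dg_update_self hb] at h
  have h2 : (b : ℤ) ∣ (⌊(a * Real.ofDigits e + c) * (b : ℝ) ^ (n + 1)⌋ + a * (((v : ℕ) : ℤ) - ((e n : ℕ) : ℤ))) -
      (⌊(a * Real.ofDigits e + c) * (b : ℝ) ^ (n + 1)⌋ + a * (((v' : ℕ) : ℤ) - ((e n : ℕ) : ℤ))) :=
    Int.ModEq.dvd h.symm
  have h3 : (b : ℤ) ∣ a * (((v : ℕ) : ℤ) - ((v' : ℕ) : ℤ)) := by
    have h4 : a * (((v : ℕ) : ℤ) - ((v' : ℕ) : ℤ)) = (⌊(a * Real.ofDigits e + c) * (b : ℝ) ^ (n + 1)⌋ +
      a * (((v : ℕ) : ℤ) - ((e n : ℕ) : ℤ))) - (⌊(a * Real.ofDigits e + c) * (b : ℝ) ^ (n + 1)⌋ +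
      a * (((v' : ℕ) : ℤ) - ((e n : ℕ) : ℤ))) := by ring
    rw [h4]
    exact h2
  have h5 : (b : ℤ) ∣ (((v : ℕ) : ℤ) - ((v' : ℕ) : ℤ)) := ha.symm.dvd_of_dvd_mul_left h3
  obtain ⟨q, hq⟩ := h5
  have h6 := v.2
  have h7 := v'.2
  have h8 : q = 0 := by
    rcases lt_trichotomy q 0 with h | h | h
    · nlinarith
    · exact h
    · nlinarith
  rw [h8, mul_zero] at hq
  apply Fin.ext
  omega

/-- the digits of `y` at the places `n + 1, …, n + j` are the last `j` digits of `w` -/
def Mt (b w : ℕ) (y : ℝ) (n j : ℕ) : Prop := ∀ i < j, dg b y (n + i) = om b w (j - 1 - i)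

theorem mt_succ (b w : ℕ) (y : ℝ) (n j : ℕ) : Mt b w y n (j + 1) ↔ dg b y n = om b w j ∧ Mt b w y (n + 1) j := by
  constructor
  · intro h
    refine ⟨?_, fun i hi => ?_⟩
    · have := h 0 (by omega)
      simpa using this
    · have := h (i + 1) (by omega)
      have e1 : n + (i + 1) = n + 1 + i := by ring
      have e2 : j + 1 - 1 - (i + 1) = j - 1 - i := by omega
      rwa [e1, e2] at this
  · rintro ⟨h1, h2⟩ i hi
    rcases Nat.eq_zero_or_pos i with h0 | h0
    · subst h0
      simpa using h1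
    · obtain ⟨i', rfl⟩ : ∃ i', i = i' + 1 := ⟨i - 1, by omega⟩
      have := h2 i' (by omega)
      have e1 : n + (i' + 1) = n + 1 + i' := by ring
      have e2 : j + 1 - 1 - (i' + 1) = j - 1 - i' := by omega
      rw [e1, e2]
      exact this

theorem mt_update {b : ℕ} (hb : 2 ≤ b) (w : ℕ) (a : ℤ) (c : ℝ) (e : ℕ → Fin b) (n m j : ℕ) (hm : n < m) (v : Fin b) :
    Mt b w (a * Real.ofDigits (Function.update e n v) + c) m j ↔ Mt b w (a * Real.ofDigits e + c) m j := by
  unfold Mt
  refine forall_congr' fun i => forall_congr' fun _ => ?_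
  rw [dg_update_gt hb a c e n (m + i) (by omega) v]

open Classical in
/-- the weight of the partial coincidences with `w` at the place `n` -/
noncomputable def Phi (b w k N s : ℕ) (x : ℝ) (a : Fin s → ℤ) (c : Fin s → ℝ) (α : ℝ) (n : ℕ) : ℝ :=
  ∑ l : Fin s, ∑ j ∈ range k, if n + (j + 1) ≤ N ∧ Mt b w (a l * α + c l) n (j + 1) then x ^ (j + 1) else 0

open Classical in
theorem phi_step {b : ℕ} (hb : 2 ≤ b) (w k N s : ℕ) {x : ℝ} (hx : 0 < x) (a : Fin s → ℤ)
    (ha : ∀ l, IsCoprime (a l) (b : ℤ)) (c : Fin s → ℝ) (e : ℕ → Fin b) (n : ℕ) :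
    ∑ v : Fin b, Phi b w k N s x a c (Real.ofDigits (Function.update e n v)) n ≤
      s * x + x * Phi b w k N s x a c (Real.ofDigits e) (n + 1) := by
  have key : ∀ l : Fin s, ∑ v : Fin b, ∑ j ∈ range k,
      (if n + (j + 1) ≤ N ∧ Mt b w (a l * Real.ofDigits (Function.update e n v) + c l) n (j + 1) then x ^ (j + 1) else 0) ≤
      x + x * ∑ j ∈ range k,
        (if n + 1 + (j + 1) ≤ N ∧ Mt b w (a l * Real.ofDigits e + c l) (n + 1) (j + 1) then x ^ (j + 1) else 0) := by
    intro l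
    rw [Finset.sum_comm]
    have h1 : ∀ j, ∑ v : Fin b, (if n + (j + 1) ≤ N ∧
        Mt b w (a l * Real.ofDigits (Function.update e n v) + c l) n (j + 1) then x ^ (j + 1) else 0) ≤
        (if n + 1 + j ≤ N ∧ Mt b w (a l * Real.ofDigits e + c l) (n + 1) j then x ^ (j + 1) else 0) := by
      intro j
      have hx1 : 0 < x ^ (j + 1) := by positivity
      by_cases h2 : n + 1 + j ≤ N ∧ Mt b w (a l * Real.ofDigits e + c l) (n + 1) j
      · rw [if_pos h2, ← Finset.sum_filter, Finset.sum_const, nsmul_eq_mul]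
        have h3 : (univ.filter fun v : Fin b => n + (j + 1) ≤ N ∧
            Mt b w (a l * Real.ofDigits (Function.update e n v) + c l) n (j + 1)).card ≤ 1 := by
          rw [Finset.card_le_one]
          intro v hv v' hv'
          rw [mem_filter] at hv hv'
          have h4 := ((mt_succ b w _ n j).1 hv.2.2).1
          have h5 := ((mt_succ b w _ n j).1 hv'.2.2).1
          exact dg_update_inj hb (a l) (ha l) (c l) e n v v' (by rw [h4, h5])
        have h6 : (((univ.filter fun v : Fin b => n + (j + 1) ≤ N ∧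
            Mt b w (a l * Real.ofDigits (Function.update e n v) + c l) n (j + 1)).card : ℕ) : ℝ) ≤ 1 := by
          exact_mod_cast h3
        nlinarith
      · rw [if_neg h2]
        refine le_of_eq (Finset.sum_eq_zero fun v _ => ?_)
        rw [if_neg]
        rintro ⟨h3, h4⟩
        apply h2
        refine ⟨by omega, ?_⟩
        rw [mt_succ] at h4
        exact (mt_update hb w (a l) (c l) e n (n + 1) j (by omega) v).1 h4.2
    refine (Finset.sum_le_sum fun j _ => h1 j).trans ?_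
    have h2 : ∑ j ∈ range k, (if n + 1 + j ≤ N ∧ Mt b w (a l * Real.ofDigits e + c l) (n + 1) j then x ^ (j + 1) else 0) ≤
        ∑ j ∈ range (k + 1), (if n + 1 + j ≤ N ∧ Mt b w (a l * Real.ofDigits e + c l) (n + 1) j then x ^ (j + 1) else 0) := by
      apply Finset.sum_le_sum_of_subset_of_nonneg (Finset.range_mono (Nat.le_succ k))
      intro j _ _
      split_ifs <;> positivity
    refine h2.trans ?_
    rw [Finset.sum_range_succ', Finset.mul_sum, add_comm]
    refine add_le_add ?_ (Finset.sum_le_sum fun j _ => ?_)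
    · split_ifs
      · simp
      · exact hx.le
    · by_cases h3 : n + 1 + (j + 1) ≤ N ∧ Mt b w (a l * Real.ofDigits e + c l) (n + 1) (j + 1)
      · rw [if_pos h3, if_pos h3]
        exact le_of_eq (by ring)
      · rw [if_neg h3, if_neg h3, mul_zero]
  have h1 : ∑ v : Fin b, Phi b w k N s x a c (Real.ofDigits (Function.update e n v)) n =
      ∑ l : Fin s, ∑ v : Fin b, ∑ j ∈ range k,
      (if n + (j + 1) ≤ N ∧ Mt b w (a l * Real.ofDigits (Function.update e n v) + c l) n (j + 1) then x ^ (j + 1) else 0) := by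
    unfold Phi
    rw [Finset.sum_comm]
  rw [h1]
  refine (Finset.sum_le_sum fun l _ => key l).trans ?_
  rw [Finset.sum_add_distrib, ← Finset.mul_sum, Finset.sum_const, Finset.card_univ, Fintype.card_fin, nsmul_eq_mul]
  unfold Phi
  exact le_rfl

open Classical in
/-- the game with a finite horizon -/
theorem finite_game {b : ℕ} (hb : 2 ≤ b) (w : ℕ) {k : ℕ} (hk : 1 ≤ k) (s : ℕ) {x : ℝ} (hx : 0 < x)
    (hs : (s : ℝ) + x ^ k ≤ (b - 1) * x ^ (k - 1)) (a : Fin s → ℤ)
    (ha : ∀ l, IsCoprime (a l) (b : ℤ)) (c : Fin s → ℝ) (δ : ℕ → ℕ) (N : ℕ) :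
    ∃ e : ℕ → Fin b, (∀ m < N, (e m : ℕ) ≠ δ m) ∧
      ∀ m, m + k ≤ N → ∀ l, ¬ Mt b w (a l * Real.ofDigits e + c l) m k := by
  have hb0 : 0 < b := by omega
  have hb2 : (2 : ℝ) ≤ b := by exact_mod_cast hb
  have main : ∀ i ≤ N, ∃ e : ℕ → Fin b, (∀ m, N - i ≤ m → m < N → (e m : ℕ) ≠ δ m) ∧
      Phi b w k N s x a c (Real.ofDigits e) (N - i) < x ^ k ∧
      ∀ m, N - i ≤ m → m + k ≤ N → ∀ l, ¬ Mt b w (a l * Real.ofDigits e + c l) m k := by
    intro i
    induction i with
    | zero =>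
      intro _
      refine ⟨fun _ => ⟨0, hb0⟩, fun m h1 h2 => by omega, ?_, fun m h1 h2 => by omega⟩
      have h1 : Phi b w k N s x a c (Real.ofDigits fun _ => (⟨0, hb0⟩ : Fin b)) (N - 0) = 0 := by
        unfold Phi
        refine Finset.sum_eq_zero fun l _ => Finset.sum_eq_zero fun j _ => ?_
        rw [if_neg]
        rintro ⟨h2, -⟩
        omega
      rw [h1]
      positivity
    | succ i ih =>
      intro hi
      obtain ⟨e, h1, h2, h3⟩ := ih (by omega)
      obtain ⟨n, hn⟩ : ∃ n, n = N - (i + 1) := ⟨_, rfl⟩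
      have hn1 : N - i = n + 1 := by omega
      rw [hn1] at h1 h2 h3
      rw [← hn]
      have hex : ∃ v : Fin b, (v : ℕ) ≠ δ n ∧
          Phi b w k N s x a c (Real.ofDigits (Function.update e n v)) n < x ^ k := by
        by_contra hcon
        push Not at hcon
        have h4 := phi_step hb w k N s hx a ha c e n
        have h5 : ((univ.filter fun v : Fin b => (v : ℕ) ≠ δ n).card : ℝ) * x ^ k ≤
            ∑ v ∈ univ.filter fun v : Fin b => (v : ℕ) ≠ δ n,
              Phi b w k N s x a c (Real.ofDigits (Function.update e n v)) n := by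
          rw [← nsmul_eq_mul]
          refine Finset.card_nsmul_le_sum _ _ _ fun v hv => ?_
          exact hcon v (mem_filter.1 hv).2
        have h6 : ∑ v ∈ univ.filter fun v : Fin b => (v : ℕ) ≠ δ n,
              Phi b w k N s x a c (Real.ofDigits (Function.update e n v)) n ≤
            ∑ v : Fin b, Phi b w k N s x a c (Real.ofDigits (Function.update e n v)) n := by
          refine Finset.sum_le_sum_of_subset_of_nonneg (Finset.filter_subset _ _) fun v _ _ => ?_
          unfold Phi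
          refine Finset.sum_nonneg fun l _ => Finset.sum_nonneg fun j _ => ?_
          split_ifs <;> positivity
        have h7 : b - 1 ≤ (univ.filter fun v : Fin b => (v : ℕ) ≠ δ n).card := by
          have h8 := Finset.card_filter_add_card_filter_not (s := (univ : Finset (Fin b))) (fun v : Fin b => (v : ℕ) ≠ δ n)
          have h9 : (univ.filter fun v : Fin b => ¬ (v : ℕ) ≠ δ n).card ≤ 1 := by
            rw [Finset.card_le_one]
            intro v hv v' hv'
            rw [mem_filter] at hv hv'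
            apply Fin.ext
            have := hv.2
            have := hv'.2
            omega
          rw [Finset.card_univ, Fintype.card_fin] at h8
          omega
        have h8 : ((b : ℝ) - 1) ≤ ((univ.filter fun v : Fin b => (v : ℕ) ≠ δ n).card : ℝ) := by
          have : ((b - 1 : ℕ) : ℝ) ≤ ((univ.filter fun v : Fin b => (v : ℕ) ≠ δ n).card : ℝ) := by exact_mod_cast h7
          rw [Nat.cast_sub (by omega)] at this
          simpa using this
        have h9 : x ^ k = x ^ (k - 1) * x := by rw [← pow_succ, Nat.sub_add_cancel hk]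
        have hxk : 0 < x ^ k := by positivity
        have h10 : ((b : ℝ) - 1) * x ^ k ≤ s * x + x * Phi b w k N s x a c (Real.ofDigits e) (n + 1) :=
          le_trans (mul_le_mul_of_nonneg_right h8 hxk.le) (h5.trans (h6.trans h4))
        have h11 : (s : ℝ) * x + x * x ^ k ≤ ((b : ℝ) - 1) * x ^ k := by
          rw [h9]
          rw [h9] at hs
          nlinarith
        have h12 : x * Phi b w k N s x a c (Real.ofDigits e) (n + 1) < x * x ^ k := mul_lt_mul_of_pos_left h2 hx
        linarith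
      obtain ⟨v, hv1, hv2⟩ := hex
      refine ⟨Function.update e n v, ?_, hv2, ?_⟩
      · intro m hm1 hm2
        rcases eq_or_ne m n with h | h
        · subst h
          rw [Function.update_self]
          exact hv1
        · rw [Function.update_of_ne h]
          exact h1 m (by omega) hm2
      · intro m hm1 hm2 l hl
        rcases eq_or_ne m n with h | h
        · subst h
          have h4 : x ^ k ≤ Phi b w k N s x a c (Real.ofDigits (Function.update e m v)) m := by
            unfold Phi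
            have h5 : ∑ j ∈ range k, (if m + (j + 1) ≤ N ∧
                Mt b w (a l * Real.ofDigits (Function.update e m v) + c l) m (j + 1) then x ^ (j + 1) else 0) ≤
                ∑ l : Fin s, ∑ j ∈ range k, (if m + (j + 1) ≤ N ∧
                Mt b w (a l * Real.ofDigits (Function.update e m v) + c l) m (j + 1) then x ^ (j + 1) else 0) := by
              refine Finset.single_le_sum (f := fun l : Fin s => ∑ j ∈ range k, (if m + (j + 1) ≤ N ∧
                Mt b w (a l * Real.ofDigits (Function.update e m v) + c l) m (j + 1) then x ^ (j + 1) else 0))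
                (fun l _ => Finset.sum_nonneg fun j _ => ?_) (mem_univ l)
              split_ifs <;> positivity
            refine le_trans ?_ h5
            have h6 : (if m + ((k - 1) + 1) ≤ N ∧
                Mt b w (a l * Real.ofDigits (Function.update e m v) + c l) m ((k - 1) + 1) then x ^ ((k - 1) + 1) else 0) ≤
                ∑ j ∈ range k, (if m + (j + 1) ≤ N ∧
                Mt b w (a l * Real.ofDigits (Function.update e m v) + c l) m (j + 1) then x ^ (j + 1) else 0) := by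
              refine Finset.single_le_sum (f := fun j => (if m + (j + 1) ≤ N ∧
                Mt b w (a l * Real.ofDigits (Function.update e m v) + c l) m (j + 1) then x ^ (j + 1) else 0))
                (fun j _ => ?_) (mem_range.2 (by omega))
              split_ifs <;> positivity
            refine le_trans ?_ h6
            rw [Nat.sub_add_cancel hk, if_pos ⟨hm2, hl⟩]
          linarith
        · rw [mt_update hb w (a l) (c l) e n m k (by omega) v] at hl
          exact h3 m (by omega) hm2 l hl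
  obtain ⟨e, h1, -, h3⟩ := main N le_rfl
  rw [Nat.sub_self] at h1 h3
  exact ⟨e, fun m hm => h1 m (Nat.zero_le _) hm, fun m hm => h3 m (Nat.zero_le _) hm⟩

/-- the two digit sequences of a number -/
theorem digits_two {b : ℕ} (hb : 2 ≤ b) (e : ℕ → Fin b) :
    (∀ n, ((e n : ℕ) : ℤ) = ⌊Real.ofDigits e * (b : ℝ) ^ (n + 1)⌋ % b) ∨
      ∀ n, ((e n : ℕ) : ℤ) = (⌈Real.ofDigits e * (b : ℝ) ^ (n + 1)⌉ - 1) % b := by
  have hb0 : (0 : ℝ) < b := by exact_mod_cast (by omega : 0 < b)
  obtain ⟨T, hT⟩ : ∃ T : ℕ → ℝ, ∀ n, T n = Real.ofDigits (fun i => e (i + n)) := ⟨_, fun n => rfl⟩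
  have hT0 : ∀ n, 0 ≤ T n := fun n => by rw [hT]; exact Real.ofDigits_nonneg _
  have hT1 : ∀ n, T n ≤ 1 := fun n => by rw [hT]; exact Real.ofDigits_le_one _
  have hrec : ∀ n, b * T n = (e n : ℕ) + T (n + 1) := by
    intro n
    have h1 := Real.ofDigits_eq_sum_add_ofDigits (fun i => e (i + n)) 1
    rw [← hT, Finset.sum_range_one, pow_one] at h1
    have h2 : (fun i => (fun i => e (i + n)) (i + 1)) = fun i => e (i + (n + 1)) := by
      funext i
      have : i + 1 + n = i + (n + 1) := by ring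
      simp only [this]
    rw [h2, ← hT] at h1
    unfold Real.ofDigitsTerm at h1
    simp only [zero_add, pow_one] at h1
    rw [h1]
    field_simp
  have hI : ∀ n, ∃ I : ℤ, Real.ofDigits e * (b : ℝ) ^ (n + 1) = b * I + (e n : ℕ) + T (n + 1) := by
    intro n
    induction n with
    | zero =>
      refine ⟨0, ?_⟩
      have h1 := hrec 0
      have h2 : T 0 = Real.ofDigits e := by rw [hT]; rfl
      rw [h2] at h1
      simp only [zero_add, pow_one, Int.cast_zero, mul_zero]
      linarith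
    | succ n ih =>
      obtain ⟨I, hI⟩ := ih
      refine ⟨b * I + (e n : ℕ), ?_⟩
      rw [pow_succ, ← mul_assoc, hI]
      have h1 := hrec (n + 1)
      push_cast
      linarith
  have hen : ∀ n, ((e n : ℕ) : ℤ) % b = (e n : ℕ) := fun n =>
    Int.emod_eq_of_lt (by positivity) (by exact_mod_cast (e n).2)
  by_cases hcase : ∀ n, T (n + 1) < 1
  · left
    intro n
    obtain ⟨I, hI⟩ := hI n
    have h1 : ⌊Real.ofDigits e * (b : ℝ) ^ (n + 1)⌋ = (e n : ℕ) + b * I := by
      rw [hI, Int.floor_eq_iff]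
      push_cast
      have := hT0 (n + 1)
      have := hcase n
      constructor <;> linarith
    rw [h1, Int.add_mul_emod_self_left, hen]
  · right
    push Not at hcase
    obtain ⟨n₀, hn₀⟩ := hcase
    have hone : ∀ t, T (n₀ + 1 + t) = 1 := by
      intro t
      induction t with
      | zero => exact le_antisymm (hT1 _) hn₀
      | succ t ih =>
        have h1 := hrec (n₀ + 1 + t)
        rw [ih, mul_one] at h1
        have h2 : ((e (n₀ + 1 + t) : ℕ) : ℝ) ≤ b - 1 := by
          have h3 : (e (n₀ + 1 + t) : ℕ) + 1 ≤ b := (e (n₀ + 1 + t)).2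
          have h4 : ((e (n₀ + 1 + t) : ℕ) : ℝ) + 1 ≤ b := by exact_mod_cast h3
          linarith
        have h3 := hT1 (n₀ + 1 + t + 1)
        rw [← add_assoc]
        linarith
    have hback : ∀ n, 0 < T (n + 1) → 0 < T n := by
      intro n h1
      have h2 := hrec n
      have h3 : (0 : ℝ) ≤ (e n : ℕ) := Nat.cast_nonneg _
      by_contra h4
      push Not at h4
      have h5 : (b : ℝ) * T n ≤ 0 := mul_nonpos_of_nonneg_of_nonpos hb0.le h4
      linarith
    have hpos : ∀ n, 0 < T n := by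
      intro n
      have h1 : ∀ t, 0 < T (n + t) → 0 < T n := by
        intro t
        induction t with
        | zero => intro h; exact h
        | succ t ih => intro h; exact ih (hback _ h)
      apply h1 (n₀ + 1)
      have h2 := hone n
      have h3 : n₀ + 1 + n = n + (n₀ + 1) := by ring
      rw [h3] at h2
      rw [h2]
      exact one_pos
    intro n
    obtain ⟨I, hI⟩ := hI n
    have h1 : ⌈Real.ofDigits e * (b : ℝ) ^ (n + 1)⌉ = (e n : ℕ) + b * I + 1 := by
      rw [hI, Int.ceil_eq_iff]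
      push_cast
      have := hT1 (n + 1)
      have := hpos (n + 1)
      constructor <;> linarith
    rw [h1, add_sub_cancel_right, Int.add_mul_emod_self_left, hen]

/-- the diagonal argument -/
theorem diag {b : ℕ} (hb : 2 ≤ b) (g : ℕ → ℝ) : ∃ δ : ℕ → ℕ, ∀ e : ℕ → Fin b, (∀ m, (e m : ℕ) ≠ δ m) →
    ∀ n, Real.ofDigits e ≠ g n := by
  refine ⟨fun m => if m % 2 = 0 then (⌊g (m / 2) * (b : ℝ) ^ (m + 1)⌋ % b).toNat
    else ((⌈g (m / 2) * (b : ℝ) ^ (m + 1)⌉ - 1) % b).toNat, fun e he n hn => ?_⟩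
  have hb0 : (b : ℤ) ≠ 0 := by omega
  rcases digits_two hb e with h | h
  · have h1 := h (2 * n)
    apply he (2 * n)
    simp only
    rw [if_pos (by omega)]
    have h2 : 2 * n / 2 = n := by omega
    rw [h2, ← hn, ← h1]
    simp
  · have h1 := h (2 * n + 1)
    apply he (2 * n + 1)
    simp only
    rw [if_neg (by omega)]
    have h2 : (2 * n + 1) / 2 = n := by omega
    rw [h2, ← hn, ← h1]
    simp

/-- the digits of a block -/
theorem mt_of_block {b k w : ℕ} (hb : 2 ≤ b) {y : ℝ} {m : ℕ}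
    (h : ⌊y * (b : ℝ) ^ (m + k)⌋ % (b : ℤ) ^ k = w) : Mt b w y m k := by
  intro i hi
  have hb0 : (0 : ℝ) < b := by exact_mod_cast (by omega : 0 < b)
  have hbz : (0 : ℤ) < b := by exact_mod_cast (by omega : 0 < b)
  obtain ⟨t, ht⟩ : ∃ t, k = i + 1 + t := ⟨k - (i + 1), by omega⟩
  have h1 : k - 1 - i = t := by omega
  rw [h1]
  unfold dg om
  have h2 : ⌊y * (b : ℝ) ^ (m + i + 1)⌋ = ⌊y * (b : ℝ) ^ (m + k)⌋ / (b : ℤ) ^ t := by
    have h3 : y * (b : ℝ) ^ (m + i + 1) = y * (b : ℝ) ^ (m + k) / ((b ^ t : ℕ) : ℝ) := by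
      have h4 : m + k = m + i + 1 + t := by omega
      rw [h4, pow_add _ (m + i + 1) t]
      push_cast
      field_simp
    rw [h3]
    have h5 := Int.floor_div_natCast (y * (b : ℝ) ^ (m + k)) (b ^ t)
    rw [h5]
    push_cast
    rfl
  rw [h2]
  generalize ⌊y * (b : ℝ) ^ (m + k)⌋ = X at h
  have h6 : X = w + (b : ℤ) ^ k * (X / (b : ℤ) ^ k) := by
    have := Int.emod_add_mul_ediv X ((b : ℤ) ^ k)
    rw [h] at this
    exact this.symm
  have hbt : (0 : ℤ) < (b : ℤ) ^ t := by positivity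
  have h7 : X / (b : ℤ) ^ t = w / (b : ℤ) ^ t + (b : ℤ) ^ (i + 1) * (X / (b : ℤ) ^ k) := by
    have h8 : X = w + (b : ℤ) ^ t * ((b : ℤ) ^ (i + 1) * (X / (b : ℤ) ^ k)) := by
      nth_rewrite 1 [h6]
      rw [ht, pow_add _ (i + 1) t]
      ring
    nth_rewrite 1 [h8]
    rw [Int.add_mul_ediv_left _ _ hbt.ne']
  rw [h7, pow_succ]
  have h9 : (w : ℤ) / (b : ℤ) ^ t + (b : ℤ) ^ i * b * (X / (b : ℤ) ^ k) =
    (w : ℤ) / (b : ℤ) ^ t + b * ((b : ℤ) ^ i * (X / (b : ℤ) ^ k)) := by ring
  rw [h9, Int.add_mul_emod_self_left]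
  push_cast
  rfl

/-- **Sharpness.** -/
theorem avoid {b : ℕ} (hb : 2 ≤ b) (w : ℕ) {k : ℕ} (hk : 1 ≤ k) (s : ℕ) {x : ℝ} (hx : 0 < x)
    (hs : (s : ℝ) + x ^ k ≤ (b - 1) * x ^ (k - 1)) (a : Fin s → ℤ)
    (ha : ∀ l, IsCoprime (a l) (b : ℤ)) (c : Fin s → ℝ) :
    ∃ α : ℝ, Irrational α ∧ ∀ (l : Fin s) (j : ℕ),
      ⌊(a l * α + c l) * (b : ℝ) ^ (j + k)⌋ % (b : ℤ) ^ k ≠ w := by
  have hb0 : (0 : ℝ) < b := by exact_mod_cast (by omega : 0 < b)
  have ha0 : ∀ l, (a l : ℝ) ≠ 0 := by
    intro l h0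
    have h1 : a l = 0 := by exact_mod_cast h0
    have h2 := ha l
    rw [h1, isCoprime_zero_left, Int.isUnit_iff] at h2
    omega
  obtain ⟨f, hf⟩ := exists_surjective_nat (ℚ ⊕ (Fin s × ℕ × ℤ))
  obtain ⟨G, hG⟩ : ∃ G : ℚ ⊕ (Fin s × ℕ × ℤ) → ℝ, G = Sum.elim (fun q : ℚ => (q : ℝ))
    (fun p => ((p.2.2 : ℝ) / (b : ℝ) ^ (p.2.1 + 1) - c p.1) / a p.1) := ⟨_, rfl⟩
  obtain ⟨δ, hδ⟩ := diag hb (fun n => G (f n))
  choose E hE1 hE2 using fun N => finite_game hb w hk s hx hs a ha c δ N
  obtain ⟨e, φ, hφ, hlim⟩ := CompactSpace.tendsto_subseq E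
  have hev : ∀ m, ∀ᶠ i in atTop, E (φ i) m = e m := by
    intro m
    have h1 := (tendsto_pi_nhds.1 hlim) m
    rw [nhds_discrete, tendsto_pure] at h1
    exact h1
  have hφt : Tendsto φ atTop atTop := hφ.tendsto_atTop
  have hne : ∀ m, (e m : ℕ) ≠ δ m := by
    intro m
    obtain ⟨i, h1, h2⟩ := ((hev m).and (hφt.eventually_gt_atTop m)).exists
    rw [← h1]
    exact hE1 (φ i) m h2
  have hα := hδ e hne
  have hval : Tendsto (fun i => Real.ofDigits (E (φ i))) atTop (𝓝 (Real.ofDigits e)) :=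
    (Real.continuous_ofDigits.tendsto e).comp hlim
  refine ⟨Real.ofDigits e, ?_, ?_⟩
  · rintro ⟨q, hq⟩
    obtain ⟨n, hn⟩ := hf (Sum.inl q)
    apply hα n
    rw [hn, hG]
    exact hq.symm
  · intro l j hj
    have h1 := mt_of_block hb hj
    -- eventually the same digits
    have h2 : ∀ m, ∀ᶠ i in atTop, dg b (a l * Real.ofDigits (E (φ i)) + c l) m = dg b (a l * Real.ofDigits e + c l) m := by
      intro m
      have h3 : Tendsto (fun i => (a l * Real.ofDigits (E (φ i)) + c l) * (b : ℝ) ^ (m + 1)) atTop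
          (𝓝 ((a l * Real.ofDigits e + c l) * (b : ℝ) ^ (m + 1))) :=
        ((hval.const_mul _).add_const _).mul_const _
      have h4 : ((⌊(a l * Real.ofDigits e + c l) * (b : ℝ) ^ (m + 1)⌋ : ℤ) : ℝ) <
          (a l * Real.ofDigits e + c l) * (b : ℝ) ^ (m + 1) := by
        refine lt_of_le_of_ne (Int.floor_le _) fun h5 => ?_
        obtain ⟨n, hn⟩ := hf (Sum.inr (l, m, ⌊(a l * Real.ofDigits e + c l) * (b : ℝ) ^ (m + 1)⌋))
        apply hα n
        rw [hn, hG]
        simp only [Sum.elim_inr]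
        rw [h5]
        have h6 := ha0 l
        field_simp
        ring
      have h5 := Int.lt_floor_add_one ((a l * Real.ofDigits e + c l) * (b : ℝ) ^ (m + 1))
      filter_upwards [h3.eventually (lt_mem_nhds h4), h3.eventually (gt_mem_nhds h5)] with i h6 h7
      unfold dg
      congr 1
      rw [Int.floor_eq_iff]
      exact ⟨h6.le, h7⟩
    have h3 : ∀ᶠ i in atTop, ∀ t ∈ range k,
        dg b (a l * Real.ofDigits (E (φ i)) + c l) (j + t) = dg b (a l * Real.ofDigits e + c l) (j + t) := by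
      rw [Filter.eventually_all_finset]
      exact fun t _ => h2 (j + t)
    obtain ⟨i, h4, h5⟩ := (h3.and (hφt.eventually_ge_atTop (j + k))).exists
    refine hE2 (φ i) j h5 l fun t ht => ?_
    rw [h4 t (mem_range.2 ht)]
    exact h1 t ht

/-- the condition in integers -/
theorem avoid_nat {b : ℕ} (hb : 2 ≤ b) (w : ℕ) {k : ℕ} (hk : 1 ≤ k) (s : ℕ)
    (hs : s * k ^ k < (b - 1) ^ k * (k - 1) ^ (k - 1)) (a : Fin s → ℤ)
    (ha : ∀ l, IsCoprime (a l) (b : ℤ)) (c : Fin s → ℝ) :
    ∃ α : ℝ, Irrational α ∧ ∀ (l : Fin s) (j : ℕ),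
      ⌊(a l * α + c l) * (b : ℝ) ^ (j + k)⌋ % (b : ℤ) ^ k ≠ w := by
  have hbR : ((b - 1 : ℕ) : ℝ) = (b : ℝ) - 1 := by rw [Nat.cast_sub (by omega)]; simp
  rcases Nat.lt_or_ge 1 k with hk2 | hk2
  · have hk0 : (0 : ℝ) < k := by exact_mod_cast (by omega : 0 < k)
    have hk1 : (0 : ℝ) < (k : ℝ) - 1 := by
      have : (1 : ℝ) < k := by exact_mod_cast hk2
      linarith
    have hbp : (0 : ℝ) < (b : ℝ) - 1 := by
      have : (1 : ℝ) < b := by exact_mod_cast (by omega : 1 < b)
      linarith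
    refine avoid hb w hk s (x := ((b : ℝ) - 1) * (k - 1) / k) (by positivity) ?_ a ha c
    have hkR : ((k - 1 : ℕ) : ℝ) = (k : ℝ) - 1 := by rw [Nat.cast_sub (by omega)]; simp
    have h1 : (s : ℝ) * (k : ℝ) ^ k ≤ ((b : ℝ) - 1) ^ k * ((k : ℝ) - 1) ^ (k - 1) := by
      rw [← hbR, ← hkR]
      exact_mod_cast hs.le
    obtain ⟨t, rfl⟩ : ∃ t, k = t + 1 := ⟨k - 1, by omega⟩
    rw [Nat.add_sub_cancel] at h1 ⊢
    have h2 : (s : ℝ) ≤ ((b : ℝ) - 1) ^ (t + 1) * (((t + 1 : ℕ) : ℝ) - 1) ^ t / ((t + 1 : ℕ) : ℝ) ^ (t + 1) := by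
      rw [le_div_iff₀ (by positivity)]
      exact h1
    have h3 : (((b : ℝ) - 1) - ((b : ℝ) - 1) * (((t + 1 : ℕ) : ℝ) - 1) / ((t + 1 : ℕ) : ℝ)) *
        (((b : ℝ) - 1) * (((t + 1 : ℕ) : ℝ) - 1) / ((t + 1 : ℕ) : ℝ)) ^ t =
        ((b : ℝ) - 1) ^ (t + 1) * (((t + 1 : ℕ) : ℝ) - 1) ^ t / ((t + 1 : ℕ) : ℝ) ^ (t + 1) := by
      rw [div_pow, mul_pow, pow_succ ((t + 1 : ℕ) : ℝ), pow_succ ((b : ℝ) - 1)]
      field_simp
      ring
    rw [← h3] at h2
    rw [pow_succ (((b : ℝ) - 1) * (((t + 1 : ℕ) : ℝ) - 1) / ((t + 1 : ℕ) : ℝ))]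
    linarith
  · have hk1 : k = 1 := by omega
    subst hk1
    simp only [pow_one, mul_one, Nat.sub_self, pow_zero] at hs
    refine avoid hb w le_rfl s (x := 1 / 2) (by norm_num) ?_ a ha c
    have h1 : ((s + 1 : ℕ) : ℝ) ≤ ((b - 1 : ℕ) : ℝ) := by exact_mod_cast hs
    rw [hbR] at h1
    push_cast at h1
    simp only [pow_one, Nat.sub_self, pow_zero, mul_one]
    linarith

end Pool.Agent.T9h51.TR
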