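import Mathlib

/-!
# Orbits of `x ↦ b x` in short arcs, and blocks of digits in the translates `α + j / M`
-/

set_option autoImplicit false

namespace Pool.Agent.T9h51.TR

/-- An orbit of `x ↦ b x mod 1` in an arc of length less than `1 / b` is an orbit of a rational number. -/
theorem arc {b : ℕ} (hb : 2 ≤ b) {β c l : ℝ} (hl : b * l < 1) {n₀ : ℕ}
    (h : ∀ n, n₀ ≤ n → ∃ z : ℤ, c ≤ β * (b : ℝ) ^ n - z ∧ β * (b : ℝ) ^ n - z ≤ c + l) : ¬ Irrational β := by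
  have hb0 : (0 : ℝ) < b := by exact_mod_cast (by omega : 0 < b)
  have hb1 : (1 : ℝ) < b := by exact_mod_cast (by omega : 1 < b)
  choose z hz1 hz2 using fun n : ℕ => h (n₀ + n) (by omega)
  obtain ⟨x, hx⟩ : ∃ x : ℕ → ℝ, ∀ n, x n = β * (b : ℝ) ^ (n₀ + n) - z n := ⟨_, fun n => rfl⟩
  obtain ⟨η, hη⟩ : ∃ η : ℝ, η = 1 - b * l := ⟨_, rfl⟩
  have hη0 : 0 < η := by rw [hη]; linarith
  have hl0 : 0 ≤ l := by
    have h1 := hz1 0
    have h2 := hz2 0
    linarith
  have hdiff : ∀ p q, |x p - x q| ≤ l := by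
    intro p q
    have h1 := hz1 p
    have h2 := hz2 p
    have h3 := hz1 q
    have h4 := hz2 q
    rw [← hx] at h1 h2 h3 h4
    rw [abs_le]
    constructor <;> linarith
  have hstep : ∀ p q, |x (p + 1) - x (q + 1)| < η → x (p + 1) - x (q + 1) = b * (x p - x q) := by
    intro p q hpq
    obtain ⟨j, hj⟩ : ∃ j : ℤ, j = b * z p - z (p + 1) - (b * z q - z (q + 1)) := ⟨_, rfl⟩
    have h1 : (x (p + 1) - x (q + 1)) - b * (x p - x q) = (j : ℝ) := by
      rw [hx, hx, hx, hx, hj, ← add_assoc, ← add_assoc, pow_succ, pow_succ]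
      push_cast
      ring
    have h2 : |(j : ℝ)| < 1 := by
      rw [← h1]
      have h3 := abs_sub (x (p + 1) - x (q + 1)) (b * (x p - x q))
      have h4 : |(b : ℝ) * (x p - x q)| ≤ b * l := by
        rw [abs_mul, abs_of_pos hb0]
        exact mul_le_mul_of_nonneg_left (hdiff p q) hb0.le
      rw [hη] at hpq
      linarith
    have h5 : j = 0 := by
      have h6 : |j| < 1 := by exact_mod_cast h2
      exact Int.abs_lt_one_iff.1 h6
    rw [h5, Int.cast_zero] at h1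
    linarith
  have hback : ∀ t p q, |x (p + t) - x (q + t)| < η → |x p - x q| * (b : ℝ) ^ t < η := by
    intro t
    induction t with
    | zero => intro p q h1; simpa using h1
    | succ t ih =>
      intro p q h1
      rw [← add_assoc, ← add_assoc] at h1
      have h2 := hstep (p + t) (q + t) h1
      rw [h2, abs_mul, abs_of_pos hb0] at h1
      have h3 : |x (p + t) - x (q + t)| < η := by
        have h4 : 0 ≤ |x (p + t) - x (q + t)| := abs_nonneg _
        nlinarith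
      have h5 : |x (p + t) - x (q + t)| = |x p - x q| * (b : ℝ) ^ t := by
        clear ih h1 h2
        induction t with
        | zero => simp
        | succ t ih =>
          rw [← add_assoc, ← add_assoc] at h3 ⊢
          have h6 := hstep (p + t) (q + t) h3
          rw [h6, abs_mul, abs_of_pos hb0] at h3 ⊢
          have h7 : |x (p + t) - x (q + t)| < η := by
            have h4 : 0 ≤ |x (p + t) - x (q + t)| := abs_nonneg _
            nlinarith
          rw [ih h7, pow_succ]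
          ring
      rw [h5] at h1
      rw [pow_succ]
      linarith
  -- pigeonhole
  obtain ⟨K, hK⟩ : ∃ K : ℕ, K = ⌊l / (η / 2)⌋₊ + 1 := ⟨_, rfl⟩
  have hg : ∀ n, ⌊(x n - c) / (η / 2)⌋₊ < K := by
    intro n
    rw [hK, Nat.lt_add_one_iff]
    apply Nat.floor_le_floor
    apply div_le_div_of_nonneg_right _ (by positivity)
    have h2 := hz2 n
    rw [← hx] at h2
    linarith
  have hpig : ∀ q : ℕ, ∃ ij : Fin (K + 1) × Fin (K + 1), ij.1 ≠ ij.2 ∧ |x (ij.1 + q) - x (ij.2 + q)| < η := by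
    intro q
    obtain ⟨i, j, hij, h1⟩ := Fintype.exists_ne_map_eq_of_card_lt
      (fun i : Fin (K + 1) => (⟨⌊(x (i + q) - c) / (η / 2)⌋₊, hg _⟩ : Fin K)) (by simp)
    refine ⟨(i, j), hij, ?_⟩
    have h2 : ⌊(x (i + q) - c) / (η / 2)⌋₊ = ⌊(x (j + q) - c) / (η / 2)⌋₊ := by
      simpa using congrArg Fin.val h1
    have hη2 : 0 < η / 2 := by positivity
    have hpos : ∀ n, 0 ≤ (x n - c) / (η / 2) := by
      intro n
      apply div_nonneg _ hη2.le
      have h2 := hz1 n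
      rw [← hx] at h2
      linarith
    have a1 := Nat.floor_le (hpos (i + q))
    have a2 := Nat.lt_floor_add_one ((x (i + q) - c) / (η / 2))
    have a3 := Nat.floor_le (hpos (j + q))
    have a4 := Nat.lt_floor_add_one ((x (j + q) - c) / (η / 2))
    rw [h2] at a1 a2
    have a5 : |(x (i + q) - c) / (η / 2) - (x (j + q) - c) / (η / 2)| < 1 := by
      rw [abs_lt]
      constructor <;> linarith
    rw [← sub_div, abs_div, abs_of_pos hη2, div_lt_one hη2] at a5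
    have a6 : x (i + q) - c - (x (j + q) - c) = x (i + q) - x (j + q) := by ring
    rw [a6] at a5
    linarith
  choose F hF1 hF2 using hpig
  obtain ⟨y, hy⟩ := Finite.exists_infinite_fiber F
  have hyinf : (F ⁻¹' {y}).Infinite := Set.infinite_coe_iff.1 hy
  have hne : (y.1 : ℕ) ≠ y.2 := by
    obtain ⟨q, hq⟩ := hyinf.nonempty
    have h1 := hF1 q
    rw [Set.mem_preimage, Set.mem_singleton_iff] at hq
    rw [hq] at h1
    exact fun h2 => h1 (Fin.ext h2)
  have heq : x y.1 = x y.2 := by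
    by_contra hcon
    have h1 : 0 < |x y.1 - x y.2| := abs_pos.2 (sub_ne_zero.2 hcon)
    obtain ⟨t, ht⟩ := pow_unbounded_of_one_lt (η / |x y.1 - x y.2|) hb1
    obtain ⟨q, hq, htq⟩ := hyinf.exists_gt t
    rw [Set.mem_preimage, Set.mem_singleton_iff] at hq
    have h2 := hF2 q
    rw [hq] at h2
    have h3 := hback q y.1 y.2 h2
    have h4 : (b : ℝ) ^ t ≤ (b : ℝ) ^ q := pow_le_pow_right₀ hb1.le htq.le
    rw [div_lt_iff₀ h1] at ht
    nlinarith
  rw [hx, hx] at heq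
  have h9 : ((b : ℝ) ^ (n₀ + (y.1 : ℕ)) - (b : ℝ) ^ (n₀ + (y.2 : ℕ))) * β = ((z y.1 - z y.2 : ℤ) : ℝ) := by
    push_cast
    linarith
  have h10 : ((b : ℝ) ^ (n₀ + (y.1 : ℕ)) - (b : ℝ) ^ (n₀ + (y.2 : ℕ))) =
      (((b : ℤ) ^ (n₀ + (y.1 : ℕ)) - (b : ℤ) ^ (n₀ + (y.2 : ℕ)) : ℤ) : ℝ) := by push_cast; rfl
  have h11 : ((b : ℤ) ^ (n₀ + (y.1 : ℕ)) - (b : ℤ) ^ (n₀ + (y.2 : ℕ))) ≠ 0 := by
    rw [sub_ne_zero]
    intro h12
    have h13 : b ^ (n₀ + (y.1 : ℕ)) = b ^ (n₀ + (y.2 : ℕ)) := by exact_mod_cast h12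
    have := Nat.pow_right_injective hb h13
    omega
  intro hβ
  rw [h10] at h9
  exact (hβ.intCast_mul h11) ⟨_, h9.symm⟩

/-- the numbers `b ^ n j`, `j < M`, meet all classes modulo `M` -/
theorem exists_mul {b M : ℕ} (hM : Nat.Coprime M b) (hM0 : 0 < M) (n : ℕ) (v : ℤ) :
    ∃ j < M, ∃ q : ℤ, (b : ℤ) ^ n * j = v + M * q := by
  haveI : NeZero M := ⟨hM0.ne'⟩
  have hc : Nat.Coprime (b ^ n) M := (Nat.Coprime.pow_right n hM).symm
  obtain ⟨u, hu⟩ : ∃ u : (ZMod M)ˣ, (u : ZMod M) = ((b ^ n : ℕ) : ZMod M) := ⟨ZMod.unitOfCoprime _ hc, rfl⟩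
  refine ⟨((u⁻¹ : (ZMod M)ˣ) * (v : ZMod M) : ZMod M).val, ZMod.val_lt _, ?_⟩
  have h1 : (((b : ℤ) ^ n * ((((u⁻¹ : (ZMod M)ˣ) : ZMod M) * (v : ZMod M) : ZMod M).val : ℤ) : ℤ) : ZMod M) = (v : ZMod M) := by
    push_cast
    rw [ZMod.natCast_zmod_val]
    have h2 : ((b : ZMod M) ^ n) = (u : ZMod M) := by rw [hu]; push_cast; rfl
    rw [h2, ← mul_assoc, Units.mul_inv, one_mul]
  rw [ZMod.intCast_eq_intCast_iff_dvd_sub] at h1
  obtain ⟨q, hq⟩ := h1
  exact ⟨-q, by linarith⟩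

/-- a block of digits which stands only finitely often in finitely many numbers -/
theorem common_bound {ι : Type} (s : Set ι) (hs : s.Finite) (P : ι → ℕ → Prop)
    (h : ∀ i ∈ s, {n : ℕ | P i n}.Finite) : ∃ n₀ : ℕ, ∀ i ∈ s, ∀ n, n₀ ≤ n → ¬ P i n := by
  have h1 : (⋃ i ∈ s, {n : ℕ | P i n}).Finite := Set.Finite.biUnion hs h
  obtain ⟨B, hB⟩ := h1.bddAbove
  refine ⟨B + 1, fun i hi n hn h2 => ?_⟩
  have := hB (Set.mem_biUnion hi h2)
  omega

/-- **Blocks in the numbers `α + j / M`.** -/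
theorem block_translates {b k M : ℕ} (hb : 2 ≤ b) (hM : Nat.Coprime M b) (hk : 1 ≤ k)
    (hM2 : b ^ k < M + b ^ (k - 1)) {α : ℝ} (hα : Irrational α) {w : ℕ} (hw : w < b ^ k) :
    ∃ j < M, {n : ℕ | ⌊(α + j / M) * (b : ℝ) ^ (n + k)⌋ % (b : ℤ) ^ k = w}.Infinite := by
  by_contra hcon
  push Not at hcon
  have hfin : ∀ j ∈ {j : ℕ | j < M}, {n : ℕ | ⌊(α + j / M) * (b : ℝ) ^ (n + k)⌋ % (b : ℤ) ^ k = w}.Finite :=
    fun j hj => hcon j hj
  obtain ⟨n₀, hn₀⟩ := common_bound _ (Set.finite_lt_nat M) _ hfin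
  have hb0 : (0 : ℝ) < b := by exact_mod_cast (by omega : 0 < b)
  have hpk : b ^ (k - 1) * b = b ^ k := by rw [← pow_succ, Nat.sub_add_cancel hk]
  have hM0 : 0 < M := by
    by_contra h0
    have h1 : M = 0 := by omega
    have h2 : 0 < b ^ (k - 1) := by positivity
    rw [h1] at hM2
    nlinarith
  have hMR : (0 : ℝ) < M := by exact_mod_cast hM0
  have hB : (0 : ℝ) < (b : ℝ) ^ k := by positivity
  have hpkR : (b : ℝ) ^ (k - 1) * b = (b : ℝ) ^ k := by exact_mod_cast hpk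
  refine arc (b := b) (β := M * α) (c := M * (w + 1) / (b : ℝ) ^ k) (l := 1 - M / (b : ℝ) ^ k) hb ?_ (n₀ := n₀) ?_
    (hα.natCast_mul hM0.ne')
  · have h1 : (b : ℝ) ^ k < M + (b : ℝ) ^ (k - 1) := by exact_mod_cast hM2
    have h2 : (b : ℝ) * (1 - M / (b : ℝ) ^ k) = b - M / (b : ℝ) ^ (k - 1) := by
      rw [← hpkR]
      have : (0 : ℝ) < (b : ℝ) ^ (k - 1) := by positivity
      field_simp
    rw [h2]
    have h3 : (0 : ℝ) < (b : ℝ) ^ (k - 1) := by positivity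
    rw [sub_lt_iff_lt_add, ← sub_lt_iff_lt_add', lt_div_iff₀ h3]
    rw [← hpkR] at h1
    linarith
  · intro n hn
    obtain ⟨z, hz⟩ : ∃ z : ℤ, z = ⌊M * α * (b : ℝ) ^ n - M * (w + 1) / (b : ℝ) ^ k⌋ := ⟨_, rfl⟩
    have hz1 := Int.floor_le (M * α * (b : ℝ) ^ n - M * (w + 1) / (b : ℝ) ^ k)
    have hz2 := Int.lt_floor_add_one (M * α * (b : ℝ) ^ n - M * (w + 1) / (b : ℝ) ^ k)
    rw [← hz] at hz1 hz2
    refine ⟨z, by linarith, ?_⟩
    by_contra h1
    push Not at h1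
    obtain ⟨j, hj, q, hq⟩ := exists_mul hM hM0 n (-(z + 1))
    apply hn₀ j hj n hn
    have hqR : (b : ℝ) ^ n * j = -(z + 1) + M * q := by exact_mod_cast hq
    have h2 : (α + j / M) * (b : ℝ) ^ (n + k) =
        (b : ℝ) ^ k * ((M * α * (b : ℝ) ^ n - (z + 1)) / M) + ((q * (b : ℤ) ^ k : ℤ) : ℝ) := by
      rw [pow_add]
      push_cast
      have h3 : (j : ℝ) / M * (b : ℝ) ^ n = (-(z + 1) + M * q) / M := by rw [← hqR]; ring
      have h4 : (α + j / M) * ((b : ℝ) ^ n * (b : ℝ) ^ k) =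
        (α * (b : ℝ) ^ n + (j : ℝ) / M * (b : ℝ) ^ n) * (b : ℝ) ^ k := by ring
      rw [h4, h3]
      field_simp
      ring
    have h5 : ⌊(b : ℝ) ^ k * ((M * α * (b : ℝ) ^ n - (z + 1)) / M)⌋ = (w : ℤ) := by
      rw [Int.floor_eq_iff]
      have h6 : M * α * (b : ℝ) ^ n - (z + 1) < M * (w + 1) / (b : ℝ) ^ k := by linarith
      have h7 : M * w / (b : ℝ) ^ k < M * α * (b : ℝ) ^ n - (z + 1) := by
        have h8 : M * (w + 1) / (b : ℝ) ^ k + (1 - M / (b : ℝ) ^ k) = M * w / (b : ℝ) ^ k + 1 := by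
          field_simp
          ring
        linarith
      rw [lt_div_iff₀ hB] at h6
      rw [div_lt_iff₀ hB] at h7
      have h9 : (b : ℝ) ^ k * ((M * α * (b : ℝ) ^ n - (z + 1)) / M) =
        (M * α * (b : ℝ) ^ n - (z + 1)) * (b : ℝ) ^ k / M := by ring
      rw [h9, le_div_iff₀ hMR, div_lt_iff₀ hMR]
      push_cast
      constructor <;> linarith
    rw [h2, Int.floor_add_intCast, h5, Int.add_mul_emod_self_right]
    exact Int.emod_eq_of_lt (by positivity) (by exact_mod_cast hw)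

/-- a number with constant digits is rational -/
theorem const_digits {b : ℕ} (hb : 2 ≤ b) {β : ℝ} {g : ℤ} {n₀ : ℕ}
    (h : ∀ n, n₀ ≤ n → ∃ z : ℤ, g ≤ β * (b : ℝ) ^ (n + 1) - b * z ∧ β * (b : ℝ) ^ (n + 1) - b * z < g + 1)
    (hg0 : 0 ≤ g) (hgb : g < b) : ¬ Irrational β := by
  have hb0 : (0 : ℝ) < b := by exact_mod_cast (by omega : 0 < b)
  have hb1 : (1 : ℝ) < b := by exact_mod_cast (by omega : 1 < b)
  have hbm : (0 : ℝ) < b - 1 := by linarith
  choose z hz1 hz2 using fun n : ℕ => h (n₀ + n) (by omega)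
  have hg0R : (0 : ℝ) ≤ g := by exact_mod_cast hg0
  have hgbR : (g : ℝ) + 1 ≤ b := by exact_mod_cast hgb
  -- the fractional parts
  obtain ⟨x, hx⟩ : ∃ x : ℕ → ℝ, ∀ n, x n = β * (b : ℝ) ^ (n₀ + n) - z n := ⟨_, fun n => rfl⟩
  have hb2 : ∀ n, β * (b : ℝ) ^ (n₀ + n + 1) - b * z n = b * x n := fun n => by
    rw [hx, pow_succ]; ring
  have h1 : ∀ n, g ≤ b * x n ∧ b * x n < g + 1 := fun n => by
    rw [← hb2]; exact ⟨hz1 n, hz2 n⟩
  have hx0 : ∀ n, 0 ≤ x n ∧ x n < 1 := fun n => by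
    have := h1 n
    constructor <;> nlinarith
  have hrec : ∀ n, x (n + 1) = b * x n - g := by
    intro n
    have h2 : (b * x n - g) - x (n + 1) = ((z (n + 1) - b * z n - g : ℤ) : ℝ) := by
      rw [hx, hx, ← add_assoc, pow_succ]
      push_cast
      ring
    have h3 : |((z (n + 1) - b * z n - g : ℤ) : ℝ)| < 1 := by
      rw [← h2, abs_lt]
      have := h1 n
      have := hx0 (n + 1)
      constructor <;> linarith
    have h4 : z (n + 1) - b * z n - g = 0 := by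
      have h5 : |z (n + 1) - b * z n - g| < 1 := by exact_mod_cast h3
      exact Int.abs_lt_one_iff.1 h5
    rw [h4, Int.cast_zero] at h2
    linarith
  have hpow : ∀ n, x n - g / (b - 1) = (b : ℝ) ^ n * (x 0 - g / (b - 1)) := by
    intro n
    induction n with
    | zero => simp
    | succ n ih =>
      rw [hrec, pow_succ]
      have h5 : (b : ℝ) * x n - g - g / (b - 1) = b * (x n - g / (b - 1)) := by
        field_simp
        ring
      rw [h5, ih]
      ring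
  have hx00 : x 0 = g / (b - 1) := by
    by_contra hcon
    have h6 : 0 < |x 0 - g / (b - 1)| := abs_pos.2 (sub_ne_zero.2 hcon)
    obtain ⟨t, ht⟩ := pow_unbounded_of_one_lt (1 / |x 0 - g / (b - 1)|) hb1
    rw [div_lt_iff₀ h6] at ht
    have h7 : |x t - g / (b - 1)| ≤ 1 := by
      have h8 : 0 ≤ (g : ℝ) / (b - 1) := div_nonneg hg0R hbm.le
      have h9 : (g : ℝ) / (b - 1) ≤ 1 := by rw [div_le_one hbm]; linarith
      have h10 := hx0 t
      rw [abs_le]
      constructor <;> linarith [h10.1, h10.2]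
    rw [hpow, abs_mul, abs_of_pos (by positivity : (0 : ℝ) < (b : ℝ) ^ t)] at h7
    linarith
  intro hβ
  rw [hx, add_zero] at hx00
  have h11 : β = ((z 0 + g / (b - 1) : ℚ) / (b : ℚ) ^ n₀ : ℚ) := by
    push_cast
    rw [← hx00]
    field_simp
    ring
  exact hβ ⟨_, h11.symm⟩

/-- **Digits in the numbers `α + j / (b - 1)`.** -/
theorem digit_translates {b : ℕ} (hb : 2 ≤ b) {α : ℝ} (hα : Irrational α) {d : ℕ} (hd : d < b) :
    ∃ j < b - 1, {n : ℕ | ⌊(α + j / ((b : ℝ) - 1)) * (b : ℝ) ^ (n + 1)⌋ % (b : ℤ) ^ 1 = d}.Infinite := by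
  by_contra hcon
  push Not at hcon
  have hfin : ∀ j ∈ {j : ℕ | j < b - 1}, {n : ℕ | ⌊(α + j / ((b : ℝ) - 1)) * (b : ℝ) ^ (n + 1)⌋ % (b : ℤ) ^ 1 = d}.Finite :=
    fun j hj => hcon j hj
  obtain ⟨n₀, hn₀⟩ := common_bound _ (Set.finite_lt_nat (b - 1)) _ hfin
  have hb0 : (0 : ℝ) < b := by exact_mod_cast (by omega : 0 < b)
  have hb1 : (1 : ℝ) < b := by exact_mod_cast (by omega : 1 < b)
  have hbm : (0 : ℝ) < b - 1 := by linarith
  have hMb : ((b - 1 : ℕ) : ℝ) = (b : ℝ) - 1 := by rw [Nat.cast_sub (by omega)]; simp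
  have hcop : Nat.Coprime (b - 1) b := by
    have h1 : b = (b - 1) + 1 := by omega
    nth_rewrite 2 [h1]
    simp
  refine const_digits (b := b) (β := ((b - 1 : ℕ) : ℝ) * α) (g := (b : ℤ) - 1 - d) hb (n₀ := n₀) ?_ (by omega)
    (by omega) (hα.natCast_mul (by omega))
  intro n hn
  obtain ⟨z, hz⟩ : ∃ z : ℤ, z = ⌊(b - 1) * α * (b : ℝ) ^ n - (b - 1) * (d + 1) / (b : ℝ)⌋ := ⟨_, rfl⟩
  have hz1 := Int.floor_le ((b - 1) * α * (b : ℝ) ^ n - (b - 1) * (d + 1) / (b : ℝ))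
  have hz2 := Int.lt_floor_add_one ((b - 1) * α * (b : ℝ) ^ n - (b - 1) * (d + 1) / (b : ℝ))
  rw [← hz] at hz1 hz2
  have hu : (b - 1) * α * (b : ℝ) ^ n - z < (b - 1) * (d + 1) / (b : ℝ) + 1 / b := by
    by_contra h1
    push Not at h1
    obtain ⟨j, hj, q, hq⟩ := exists_mul hcop (by omega) n (-(z + 1))
    apply hn₀ j hj n hn
    have hqR : (b : ℝ) ^ n * j = -(z + 1) + (b - 1) * q := by
      rw [← hMb]
      exact_mod_cast hq
    have h2 : (α + j / ((b : ℝ) - 1)) * (b : ℝ) ^ (n + 1) =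
        (b : ℝ) * (((b - 1) * α * (b : ℝ) ^ n - (z + 1)) / (b - 1)) + ((q * (b : ℤ) ^ 1 : ℤ) : ℝ) := by
      rw [pow_succ]
      push_cast
      have h3 : (j : ℝ) / (b - 1) * (b : ℝ) ^ n = (-(z + 1) + (b - 1) * q) / (b - 1) := by rw [← hqR]; ring
      have h4 : (α + j / ((b : ℝ) - 1)) * ((b : ℝ) ^ n * (b : ℝ)) =
        (α * (b : ℝ) ^ n + (j : ℝ) / (b - 1) * (b : ℝ) ^ n) * (b : ℝ) := by ring
      rw [h4, h3]
      field_simp
      ring
    have h5 : ⌊(b : ℝ) * (((b - 1) * α * (b : ℝ) ^ n - (z + 1)) / (b - 1))⌋ = (d : ℤ) := by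
      rw [Int.floor_eq_iff]
      have h6 : (b - 1) * α * (b : ℝ) ^ n - (z + 1) < (b - 1) * (d + 1) / (b : ℝ) := by linarith
      have h7 : (b - 1) * d / (b : ℝ) ≤ (b - 1) * α * (b : ℝ) ^ n - (z + 1) := by
        have h8 : (b - 1) * (d + 1) / (b : ℝ) + 1 / b = (b - 1) * d / (b : ℝ) + 1 := by
          field_simp
          ring
        linarith
      rw [lt_div_iff₀ hb0] at h6
      rw [div_le_iff₀ hb0] at h7
      have h9 : (b : ℝ) * (((b - 1) * α * (b : ℝ) ^ n - (z + 1)) / (b - 1)) =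
        ((b - 1) * α * (b : ℝ) ^ n - (z + 1)) * (b : ℝ) / (b - 1) := by ring
      rw [h9, le_div_iff₀ hbm, div_lt_iff₀ hbm]
      push_cast
      constructor <;> linarith
    rw [h2, Int.floor_add_intCast, h5, Int.add_mul_emod_self_right, pow_one]
    exact Int.emod_eq_of_lt (by positivity) (by exact_mod_cast hd)
  refine ⟨z + d, ?_⟩
  rw [hMb, pow_succ]
  push_cast
  have h10 : (b : ℝ) * ((b - 1) * (d + 1) / b) = (b - 1) * (d + 1) := by field_simp
  have h11 : (b : ℝ) * (1 / b) = 1 := by field_simp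
  constructor
  · have h12 : (b : ℝ) * ((b - 1) * (d + 1) / b) ≤ b * ((b - 1) * α * (b : ℝ) ^ n - z) :=
      mul_le_mul_of_nonneg_left (by linarith) hb0.le
    rw [h10] at h12
    linarith
  · have h12 : b * ((b - 1) * α * (b : ℝ) ^ n - z) < (b : ℝ) * ((b - 1) * (d + 1) / b + 1 / b) :=
      mul_lt_mul_of_pos_left hu hb0
    rw [mul_add, h10, h11] at h12
    linarith

end Pool.Agent.T9h51.TR
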